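import Pool.Agent.T2H82.PW.Main

/-!
# The growth exponent is invariant under periodic weights

Let `θ` be the growth exponent of `sup_x |∑_{n ≤ R} μ(n) e(n x)|`. For every periodic function `w` which does not vanish at
all squarefree numbers, the growth exponent of `sup_x |∑_{n ≤ R} μ(n) w(n) e(n x)|` is exactly `θ` (last part). In
particular `θ` can be computed from one single residue class, or from one twist `μ χ` by a Dirichlet character.

The general form (first part): `f` is multiplicative, supported on the squarefree numbers and unimodular at the primes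
(`SqfMul`; for instance `μ`), `w(n) = ∑ c_k e(r_k n)` with rational `r_k` and `∑ |c_k| < ∞` (`RatFourier`; for instance all
periodic functions), `f w` is not identically zero, and the supremum is taken over a set `Φ` of functions which is closed
under multiplication by `e(r t)`, `r` rational, and under dilation by positive rational numbers (`Closed`; for instance the
functions `e(P(t))`, `P` a real polynomial of degree at most `k`, where `k ≥ 1`). Then
`sup_{u ∈ Φ} |∑_{n ≤ R} f(n) w(n) u(n)|` and `sup_{u ∈ Φ} |∑_{n ≤ R} f(n) u(n)|` have the same growth exponent.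

Proof of the nontrivial direction. A local inverse of `w` in the algebra of absolutely convergent Fourier series with rational
frequencies reduces the bound for `f w` to the bound for `f` on one residue class of some `n₀`, hence (divide by `n₀`) on the
class of `1` modulo some `q`. For the class of `b`, `(b, q) = 1`, take a large prime `p` with `p b = 1` modulo `q`
(Dirichlet): the terms with `p ∤ n` are `f(p n) / f(p)`, so their sum is a sum up to `p R` over the class of `1` and the
multiples of `p`; the terms with `p ∣ n` form a sum up to `R / p` over the class of `b²`; as `p ^ a ≥ 4` one concludes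
by induction on `R`. Finally the conditions of coprimality to the primes dividing `q` are removed one by one.
-/

set_option autoImplicit false

namespace Pool.Agent.Results.MP_b6b996_nt.PeriodicWeights

open Finset Pool.Agent.T2H82.PW

theorem result :
    (∀ Φ : Set (ℝ → ℂ), Closed Φ → ∀ f : ℕ → ℂ, SqfMul f → ∀ w : ℕ → ℂ, RatFourier w →
      (∃ n : ℕ, 1 ≤ n ∧ f n * w n ≠ 0) → ∀ a : ℝ, 0 ≤ a →
      (Bnd Φ (fun n => f n * w n) a ↔ Bnd Φ f a)) ∧
    (∀ q : ℕ, 1 ≤ q → ∀ w : ℕ → ℂ, (∀ n : ℕ, w (n + q) = w n) → RatFourier w) ∧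
    (∀ k : ℕ, 1 ≤ k → Closed (Poly k)) ∧
    SqfMul (fun n => ((ArithmeticFunction.moebius n : ℤ) : ℂ)) ∧
    (∀ q : ℕ, 1 ≤ q → ∀ w : ℕ → ℂ, (∀ n : ℕ, w (n + q) = w n) →
      (∃ n : ℕ, Squarefree n ∧ w n ≠ 0) → ∀ a : ℝ, 0 ≤ a →
      ((∀ ε : ℝ, 0 < ε → ∃ C : ℝ, ∀ R : ℕ, 1 ≤ R → ∀ x : ℝ,
          ‖∑ n ∈ Icc 1 R, ((ArithmeticFunction.moebius n : ℤ) : ℂ) * w n *
            Complex.exp (2 * Real.pi * (x * n) * Complex.I)‖ ≤ C * (R : ℝ) ^ (a + ε)) ↔
        (∀ ε : ℝ, 0 < ε → ∃ C : ℝ, ∀ R : ℕ, 1 ≤ R → ∀ x : ℝ,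
          ‖∑ n ∈ Icc 1 R, ((ArithmeticFunction.moebius n : ℤ) : ℂ) *
            Complex.exp (2 * Real.pi * (x * n) * Complex.I)‖ ≤ C * (R : ℝ) ^ (a + ε)))) := by
  refine ⟨fun Φ hΦ f hf w hw hne a ha => main hΦ hf hw hne ha, periodic, closed_poly, moebius, ?_⟩
  intro q hq w hw hne a ha
  obtain ⟨n, hn, hwn⟩ := hne
  have hn1 : 1 ≤ n := Nat.pos_of_ne_zero hn.ne_zero
  have hmu : ((ArithmeticFunction.moebius n : ℤ) : ℂ) ≠ 0 := by
    exact_mod_cast ArithmeticFunction.moebius_ne_zero_iff_squarefree.2 hn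
  have h := main closed_lin moebius (periodic q hq w hw) ⟨n, hn1, mul_ne_zero hmu hwn⟩ ha
  have key : ∀ g : ℕ → ℂ, Bnd Lin g a ↔ ∀ ε : ℝ, 0 < ε → ∃ C : ℝ, ∀ R : ℕ, 1 ≤ R → ∀ x : ℝ,
      ‖∑ n ∈ Icc 1 R, g n * Complex.exp (2 * Real.pi * (x * n) * Complex.I)‖ ≤
        C * (R : ℝ) ^ (a + ε) := by
    intro g
    have e1 : ∀ (x : ℝ) (R : ℕ), S g (fun t => e (x * t)) R =
        ∑ n ∈ Icc 1 R, g n * Complex.exp (2 * Real.pi * (x * n) * Complex.I) := by
      intro x R
      unfold S e
      refine Finset.sum_congr rfl fun n _ => ?_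
      push_cast
      rfl
    constructor
    · intro hb ε hε
      obtain ⟨C, hC⟩ := hb ε hε
      refine ⟨C, fun R hR x => ?_⟩
      rw [← e1]
      exact hC R hR _ ⟨x, rfl⟩
    · intro hb ε hε
      obtain ⟨C, hC⟩ := hb ε hε
      refine ⟨C, fun R hR u hu => ?_⟩
      obtain ⟨x, rfl⟩ := hu
      rw [e1]
      exact hC R hR x
  rw [key, key] at h
  exact h

end Pool.Agent.Results.MP_b6b996_nt.PeriodicWeights
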