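import Pool.Agent.T2H31.PX.Asm
import Pool.Agent.T2H31.PX.T_STB
import Pool.Agent.T2H31.PX.T_ANA
import Pool.Agent.T2H31.PX.T_LAN
import Pool.Agent.T2H31.PX.T_EUL
import Pool.Agent.T2H31.PX.T_CNV
import Pool.Agent.T2H31.PX.T_NEC
import Pool.Agent.T2H31.PX.T_RND
import Pool.Agent.T2H31.PX.T_KAP
import Pool.Agent.T2H31.PX.T_FAI
import Pool.Agent.T2H31.RC.T_FAIRM
import Pool.Agent.T2H31.RC.T_UNI
import Pool.Agent.T2H31.RC.T_PROB
import Pool.Agent.T2H31.RC.T_BON
import Pool.Agent.T2H31.RC.T_DIVS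
import Pool.Agent.T2H31.RC.T_MOD

/-!
# The growth exponent of multiplicative exponential sums near the Moebius function

For signs `x p` (`IsSign x`) let `mo x` be the multiplicative function supported on the squarefree numbers with the values
`x p` at the primes (`mo (fun _ => -1) = μ`) and `F x R t = ∑_{n ≤ R} mo x n e(n t)`. `Bnd S x a`: the growth exponent of
`sup_{t ∈ S} |F x R t|` is at most `a`; for `S = ℝ` and `x = -1` this says `θ ≤ a` with the `θ` of the question. `Closed S`: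
`S` is nonempty and closed under multiplication by natural numbers (`S = ℝ`, `S = {0}`, the rationals whose denominators
divide `q`, ...). `Kap E a`: the exponent of convergence of the set of the primes with `E p` is at most `a`.

(0) `F (-1)` is the sum of the question; the random models exist.

(1) Exact exponent. If `∑ x p p ^ (-σ)` is not bounded below for `σ → 1+` then for `0 ≤ a < 1` and all closed `S`: the exponent
of `mo x` over `S` is at most `a` if and only if the exponent of `μ` over `S` is at most `a` and the exponent of convergence of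
the set `{p : x p = 1}` is at most `a`. So the exponent of `mo x` is `max (θ, κ)`.

(2) Stability: the exponents of `mo x` and `mo x'` over `S` are the same above the exponent of convergence of
`{p : x p ≠ x' p}`.

(3) Random noise: let the `X p` be independent, `P (X p = -1) = δ p ≤ 1/2 - η`. Almost surely, for all closed `S` and
`0 ≤ a < 1`, the exponent of `mo (- X)` over `S` is at most `a` if and only if this holds for `μ` and the exponent of
convergence of `∑ δ p p ^ (-σ)` is at most `a`.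

(4) For `δ p = p ^ (-c) / 3`, `c ≥ 0`, the exponent is `max (θ, 1 - c)` almost surely (it is not smaller than one for `c = 0`).

(5) For fair signs (`δ = 1/2`) it is at most `1/2` almost surely, uniformly in all frequencies.

Proved in `Pool/Agent/T2H31/PX` with helper8, helper20, helper42, helper69, helper74, helper84.
-/

set_option autoImplicit false

open MeasureTheory ProbabilityTheory Finset Filter Topology

namespace Pool.Agent.Results.MP_b6b996_nt.PerturbationExponent

open Pool.Agent.T2H31.RC Pool.Agent.T2H31.PX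

theorem result :
    (∀ (R : ℕ) (t : ℝ), F (fun _ => -1) R t =
      ∑ n ∈ Icc 1 R, ((ArithmeticFunction.moebius n : ℤ) : ℂ) * Complex.exp (2 * Real.pi * (n * t) * Complex.I)) ∧
    P_MOD ∧
    (∀ S : Set ℝ, Closed S → ∀ x : ℕ → ℝ, IsSign x → Neg x → ∀ a : ℝ, 0 ≤ a → a < 1 →
      (Bnd S x a ↔ Bnd S (fun _ => -1) a ∧ Kap (fun p => x p = 1) a)) ∧
    (∀ S : Set ℝ, Closed S → ∀ x x' : ℕ → ℝ, IsSign x → IsSign x' → ∀ a : ℝ, 0 ≤ a →
      Kap (fun p => x p ≠ x' p) a → (Bnd S x a ↔ Bnd S x' a)) ∧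
    (∀ (Ω : Type) [MeasurableSpace Ω] (P : Measure Ω) (δ : ℕ → ℝ) (X : ℕ → Ω → ℝ), Noise P δ X →
      ∀ η : ℝ, 0 < η → (∀ p, 0 ≤ δ p ∧ δ p ≤ 1 / 2 - η) →
      ∀ᵐ ω ∂P, ∀ S : Set ℝ, Closed S → ∀ a : ℝ, 0 ≤ a → a < 1 →
        (Bnd S (fun p => - X p ω) a ↔ Bnd S (fun _ => -1) a ∧
          ∀ ε : ℝ, 0 < ε → Summable (fun p : Nat.Primes => δ p * ((p : ℕ) : ℝ) ^ (-(a + ε))))) ∧
    (∀ (Ω : Type) [MeasurableSpace Ω] (P : Measure Ω) (c : ℝ), 0 ≤ c → ∀ X : ℕ → Ω → ℝ,
      Noise P (fun p => (p : ℝ) ^ (-c) / 3) X →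
      ∀ᵐ ω ∂P, ∀ S : Set ℝ, Closed S → ∀ a : ℝ, 0 ≤ a → a < 1 →
        (Bnd S (fun p => - X p ω) a ↔ Bnd S (fun _ => -1) a ∧ 1 - c ≤ a)) ∧
    (∀ (Ω : Type) [MeasurableSpace Ω] (P : Measure Ω) (X : ℕ → Ω → ℝ), Noise P (fun _ => 1 / 2) X →
      ∀ᵐ ω ∂P, Bnd Set.univ (fun p => X p ω) (1 / 2) ∧ Bnd Set.univ (fun p => - X p ω) (1 / 2)) := by
  have hNEC : P_NEC := T_NEC T_ANA T_LAN T_EUL T_CNV
  have hFAI : P_FAI := T_FAI (T_FAIRM (T_UNI (T_PROB T_BON)) T_DIVS)
  refine ⟨?_, T_MOD, main T_STB hNEC, ?_, ?_, ?_, ?_⟩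
  · intro R t
    unfold F
    refine sum_congr rfl fun n _ => ?_
    rw [mo_moebius]
    unfold ee
    push_cast
    rfl
  · intro S hS x x' hx hx' a ha hK
    have hK' : Kap (fun p => x' p ≠ x p) a := by
      have e : (fun p => x' p ≠ x p) = fun p => x p ≠ x' p := by
        funext p
        exact propext ne_comm
      rw [e]
      exact hK
    exact ⟨T_STB S hS.2 x x' hx hx' a ha hK, T_STB S hS.2 x' x hx' hx a ha hK'⟩
  · intro Ω _ P δ X hX η hη hδ
    exact noise T_STB hNEC T_RND T_KAP Ω P δ X hX η hη hδ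
  · intro Ω _ P c hc X hX
    exact power T_STB hNEC T_RND T_KAP Ω P c hc X hX
  · intro Ω _ P X hX
    exact fair hFAI Ω P X hX

end Pool.Agent.Results.MP_b6b996_nt.PerturbationExponent
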