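import Pool.Agent.T2H11.RTP.Low

set_option autoImplicit false

/-!
# MP_b6b996_nt: the growth exponent is `1/2` for almost every multiplicative twist of the Möbius function

Let `θ_p` (`p` prime) be angles in `[0, 1]` and `f = tw θ` the completely multiplicative function with `f(p) = e(θ_p)`,
`e(x) = exp (2 π i x)`. For `P`-almost every choice of the angles (independent, uniform) the sums

`∑_{n ≤ R} μ(n) f(n) e(n x)`

have the growth exponent `1/2` that is conjectured for `f = 1`. More generally, for every `|a(n)| ≤ 1` almost every `f` has square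
root cancellation, with exponent `1/2 + ε`, uniformly

* over all intervals `(M, M + H]` with `M ≤ H ^ A`, `A` arbitrary (so intervals of length `N ^ δ`, any `δ > 0`, up to `N`),
* over all real polynomial phases `α_0 + α_1 n + ... + α_d n ^ d` of every degree `d`,
* over all Dirichlet characters of every modulus `q ≤ H ^ A`,
* over all `n ^ (i t)`, `|t| ≤ H ^ A`.

Proof: a high moment. `E |∑ g(n) f(n)| ^ (2 k)` is at most the number of the pairs of `k`-tuples in `(M, M + H]` with equal
products, which is `O (H ^ (k + ε))` by the divisor bound, for `M ≤ H ^ A`. A union bound over a net in the coefficients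
(modulo one), the characters and `t`, and over all `M ≤ H ^ A` costs a power of `H` that does not depend on `k`. The lower
bound is Parseval's formula and the positive density of the squarefree numbers.
-/

open MeasureTheory Finset

namespace Pool.Agent.Results.MP_b6b996_nt.RandomTwists

/-- the law of the independent uniform angles `θ_n` in `[0, 1]` (only `θ_p`, `p` prime, is used) -/
noncomputable abbrev angles : Measure (ℕ → ℝ) := Pool.Agent.T2H98.RT.P

/-- the completely multiplicative function `f` with `f(p) = exp (2 π i θ_p)` -/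
noncomputable abbrev twist (θ : ℕ → ℝ) (n : ℕ) : ℂ := Pool.Agent.T2H98.RT.tw θ n

/-- the exponential sum `∑_{n = 1}^R c(n) e(n x)`; `c = μ` gives `F_R (x)` -/
noncomputable def expSum (c : ℕ → ℂ) (R : ℕ) (x : ℝ) : ℂ :=
  ∑ n ∈ Icc 1 R, c n * Complex.exp (2 * Real.pi * Complex.I * n * x)

/-- the infimum of the `a ≥ 0` with `sup_x |∑_{n ≤ R} c(n) e(n x)| = O (R ^ a)`; `c = μ` gives the `θ` of the problem -/
noncomputable def growthExponent (c : ℕ → ℂ) : ℝ :=
  sInf {a : ℝ | 0 ≤ a ∧ ∃ C : ℝ, ∀ R : ℕ, 1 ≤ R → ∀ x : ℝ, ‖expSum c R x‖ ≤ C * (R : ℝ) ^ a}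

/-- the functions `twist θ` are completely multiplicative and unimodular, with the value `exp (2 π i θ_p)` at the prime `p` -/
lemma twist_spec (θ : ℕ → ℝ) : twist θ 1 = 1 ∧ (∀ m n : ℕ, m ≠ 0 → n ≠ 0 → twist θ (m * n) = twist θ m * twist θ n) ∧
    (∀ n, ‖twist θ n‖ = 1) ∧ ∀ p : ℕ, p.Prime → twist θ p = Complex.exp (2 * Real.pi * θ p * Complex.I) := by
  refine ⟨?_, ?_, ?_, ?_⟩
  · exact Pool.Agent.T2H98.RT.pMUL.2.2.1 θ
  · intro m n hm hn
    exact Pool.Agent.T2H98.RT.pMUL.1 θ m n hm hn
  · intro n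
    exact Pool.Agent.T2H98.RT.pMUL.2.1 θ n
  · intro p hp
    unfold twist Pool.Agent.T2H98.RT.tw Pool.Agent.T2H98.RT.ph
    rw [hp.primeFactors, sum_singleton, hp.factorization_self]
    norm_num

/-- (1) For almost every `θ` the growth exponent of the Möbius function times `twist θ` is `1/2`. (2) For every `|a(n)| ≤ 1` and
almost every `θ`: square root cancellation up to `H ^ ε`, uniformly in intervals, characters, `n ^ (i t)` and polynomial
phases. -/
theorem result :
    (∀ᵐ θ ∂angles, growthExponent (fun n => ((ArithmeticFunction.moebius n : ℤ) : ℂ) * twist θ n) = 1 / 2) ∧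
    ∀ a : ℕ → ℂ, (∀ n, ‖a n‖ ≤ 1) → ∀ᵐ θ ∂angles, ∀ (d A : ℕ) (ε : ℝ), 0 < ε → ∃ C : ℝ,
      ∀ M H : ℕ, 1 ≤ H → M ≤ H ^ A → ∀ q : ℕ, 1 ≤ q → q ≤ H ^ A → ∀ (χ : DirichletCharacter ℂ q) (t : ℝ),
      |t| ≤ (H : ℝ) ^ A → ∀ α : Fin (d + 1) → ℝ,
        ‖∑ n ∈ Ioc M (M + H), a n * twist θ n * χ (n : ZMod q) * (n : ℂ) ^ (t * Complex.I) *
          Complex.exp (((2 * Real.pi * ∑ j, α j * (n : ℝ) ^ (j : ℕ) : ℝ) : ℂ) * Complex.I)‖ ≤
        C * (H : ℝ) ^ (1 / 2 + ε) := by
  refine ⟨?_, ?_⟩
  · exact Pool.Agent.T2H11.RTP.exponent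
  · intro a ha
    exact Pool.Agent.T2H11.RTP.twists a ha

end Pool.Agent.Results.MP_b6b996_nt.RandomTwists
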