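import Pool.Agent.T2H67.SAr.Main

set_option autoImplicit false

/-!
# MP_b6b996_nt: the lower bound for the Möbius exponential sum on short arcs

Let `S(x) = ∑_{n ≤ R} a(n) e(n x)`, where `a(n) = 0` if `n` is not squarefree and `1 ≤ |a(n)| ≤ B` if `n` is squarefree; the
coefficients are otherwise arbitrary complex numbers. We show that for every arc `I` of length `δ ≤ 1` and every complex `z` of
modulus one

`∫_I (Re z S(x))² dx ≥ R exp(- 500 L² / δ)`, `L = 1 + log (B / δ)`, as soon as `log R ≥ 1000 L² / δ`.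

The constants are explicit and the length of the arc may tend to zero: for `|I| = (4000 / ε) (log log R)² / log R` and all large
`R` the mean square is at least `R^(1 - ε/2)`, and some `x` in `I` has `|Re z S(x)| ≥ R^(1/2 - ε/2)`. This holds for
`F_R(x) = ∑_{n ≤ R} μ(n) e(n x)` and, with the same `R₀`, for all sums `∑_{n ≤ R} μ(n) w(n) e(n x)`, `|w(n)| = 1`, for instance
`w(n) = e(φ(n))` with an arbitrary real function `φ`.

Proof. By the Chinese remainder theorem with squares of `2 N` primes there are at least `R / (8 Q)`, `log Q = O(N log N)`,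
squarefree numbers `m ≤ R` such that no other number at distance at most `N` from `m` is squarefree. For the function `φ` on the
arc which is the density of the sum of `r` independent uniform variables on an interval of length `δ / r` the Fourier coefficient
of `φ S` at such an `m` is `a(m)` up to an error `B (r / δ) π^(- r)`, if `N ≥ r / δ`; we choose `r` of the order of `L`. The mean
square of these Fourier coefficients is bounded by the mean square of `S` on the arc (Bessel's inequality on the short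
intervals of length `δ / r` and Jensen's inequality for the other averages).
-/

open Finset MeasureTheory

namespace Pool.Agent.Results.MP_b6b996_nt.ShortArcs

/-- the exponential sum `∑_{n=1}^R a(n) e(n x)`, `e(y) = exp(2 π i y)` -/
noncomputable def expSum (a : ℕ → ℂ) (R : ℕ) (x : ℝ) : ℂ :=
  ∑ n ∈ Finset.Icc 1 R, a n * Complex.exp (2 * Real.pi * Complex.I * n * x)

/-- the length `(4000 / ε) (log log R)² / log R` -/
noncomputable def arc (ε : ℝ) (R : ℕ) : ℝ := 4000 * Real.log (Real.log R) ^ 2 / (ε * Real.log R)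

theorem result :
    -- arbitrary coefficients on the squarefree numbers
    (∀ B δ : ℝ, 1 ≤ B → 0 < δ → δ ≤ 1 → ∀ R : ℕ, 1000 * (1 + Real.log (B / δ)) ^ 2 / δ ≤ Real.log R →
      ∀ (α : ℝ) (z : ℂ), ‖z‖ = 1 → ∀ a : ℕ → ℂ,
      (∀ n, 1 ≤ n → n ≤ R → ¬ Squarefree n → a n = 0) →
      (∀ n, 1 ≤ n → n ≤ R → Squarefree n → 1 ≤ ‖a n‖ ∧ ‖a n‖ ≤ B) →
      R * Real.exp (-(500 * (1 + Real.log (B / δ)) ^ 2 / δ)) ≤ ∫ x in α..(α + δ), (z * expSum a R x).re ^ 2) ∧
    -- the Moebius function with arbitrary twists of modulus one, on arcs of length tending to zero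
    (∀ ε : ℝ, 0 < ε → ε ≤ 1 → ∃ R₀ : ℕ, ∀ R : ℕ, R₀ ≤ R → arc ε R ≤ 1 ∧
      ∀ (α : ℝ) (z : ℂ), ‖z‖ = 1 → ∀ w : ℕ → ℂ, (∀ n, ‖w n‖ = 1) →
      (R : ℝ) ^ (1 - ε / 2) ≤ ∫ x in α..(α + arc ε R),
        (z * expSum (fun n => (ArithmeticFunction.moebius n : ℂ) * w n) R x).re ^ 2 ∧
      ∃ x ∈ Set.Icc α (α + arc ε R), (R : ℝ) ^ (1 / 2 - ε / 2) ≤
        |(z * expSum (fun n => (ArithmeticFunction.moebius n : ℂ) * w n) R x).re|) ∧
    -- the Moebius exponential sum itself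
    (∀ ε : ℝ, 0 < ε → ε ≤ 1 → ∃ R₀ : ℕ, ∀ R : ℕ, R₀ ≤ R → ∀ α : ℝ, ∃ x ∈ Set.Icc α (α + arc ε R),
      (R : ℝ) ^ (1 / 2 - ε / 2) ≤ ‖∑ n ∈ Finset.Icc 1 R, (ArithmeticFunction.moebius n : ℂ) *
        Complex.exp (2 * Real.pi * Complex.I * n * x)‖) := by
  have h2 : ∀ ε : ℝ, 0 < ε → ε ≤ 1 → ∃ R₀ : ℕ, ∀ R : ℕ, R₀ ≤ R → arc ε R ≤ 1 ∧
      ∀ (α : ℝ) (z : ℂ), ‖z‖ = 1 → ∀ w : ℕ → ℂ, (∀ n, ‖w n‖ = 1) →
      (R : ℝ) ^ (1 - ε / 2) ≤ ∫ x in α..(α + arc ε R),
        (z * expSum (fun n => (ArithmeticFunction.moebius n : ℂ) * w n) R x).re ^ 2 ∧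
      ∃ x ∈ Set.Icc α (α + arc ε R), (R : ℝ) ^ (1 / 2 - ε / 2) ≤
        |(z * expSum (fun n => (ArithmeticFunction.moebius n : ℂ) * w n) R x).re| := by
    intro ε hε hε1
    obtain ⟨R₀, h⟩ := Pool.Agent.T2H67.SAr.short_arcs_eps hε hε1
    refine ⟨R₀, fun R hR => ⟨(h R hR).1, fun α z hz w hw => ?_⟩⟩
    refine (h R hR).2 α z hz _ (fun n _ _ hn => ?_) (fun n _ _ hn => ?_)
    · rw [ArithmeticFunction.moebius_eq_zero_of_not_squarefree hn]
      simp
    · rw [norm_mul, hw n, mul_one, ArithmeticFunction.moebius_apply_of_squarefree hn]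
      simp
  refine ⟨fun B δ hB hδ hδ1 R hR α z hz a ha0 ha1 =>
    Pool.Agent.T2H67.SAr.short_arcs hB hδ hδ1 R hR α z hz a ha0 ha1, h2, fun ε hε hε1 => ?_⟩
  obtain ⟨R₀, h⟩ := h2 ε hε hε1
  refine ⟨R₀, fun R hR α => ?_⟩
  obtain ⟨-, x, hx, hx2⟩ := (h R hR).2 α 1 (by simp) (fun _ => 1) (by simp)
  refine ⟨x, hx, hx2.trans ((Complex.abs_re_le_norm _).trans (le_of_eq ?_))⟩
  rw [one_mul]
  unfold expSum
  simp only [mul_one]

end Pool.Agent.Results.MP_b6b996_nt.ShortArcs
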